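import Pool.Agent.Helper26K1.WD.Cover

/-!
Counting the balls which are needed to cover the points which are bad at many scales, when the bad
points of each scale do not form clusters at that scale.
-/

set_option autoImplicit false

open Filter Topology Set

namespace Pool.Agent.Helper26K1.WS

open Pool.Agent.Helper26K1.WD

/-- covering a ball of the circle by smaller balls -/
lemma ball_cover (y : UnitAddCircle) {ρ : ℝ} (hρ : 0 < ρ) {L : ℕ} (hL : 1 ≤ L) :
    ∃ F : Finset UnitAddCircle, F.card ≤ 3 * L ∧ ∀ x : UnitAddCircle, ‖x - y‖ ≤ ρ →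
      ∃ z ∈ F, ‖x - z‖ ≤ ρ / L := by
  classical
  have hLR : (0 : ℝ) < L := by exact_mod_cast hL
  refine ⟨(Finset.range (2 * L + 1)).image fun i : ℕ =>
    y + (((((i : ℝ) - L) * (ρ / L) : ℝ)) : UnitAddCircle), ?_, fun x hx => ?_⟩
  · refine Finset.card_image_le.trans ?_
    rw [Finset.card_range]
    omega
  · obtain ⟨t0, ht0⟩ : ∃ t0 : ℝ, ((t0 : ℝ) : UnitAddCircle) = x - y :=
      QuotientAddGroup.mk_surjective _
    set t : ℝ := t0 - round t0 with ht
    have htT : ((t : ℝ) : UnitAddCircle) = x - y := by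
      rw [ht, AddCircle.coe_sub, ht0]
      have h3 : (((round t0 : ℤ) : ℝ) : UnitAddCircle) = 0 := by
        rw [AddCircle.coe_eq_zero_iff]
        exact ⟨round t0, by rw [zsmul_eq_mul, mul_one]⟩
      rw [h3, sub_zero]
    have habs : |t| ≤ ρ := by
      have h1 : ‖((t0 : ℝ) : UnitAddCircle)‖ = |t| := by rw [UnitAddCircle.norm_eq]
      rw [ht0] at h1
      rw [← h1]; exact hx
    rw [abs_le] at habs
    set u : ℝ := (t + ρ) / (ρ / L) with hu
    have hρL : 0 < ρ / L := by positivity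
    have hu0 : 0 ≤ u := by
      have : 0 ≤ t + ρ := by linarith
      positivity
    have hu2 : u ≤ 2 * L := by
      rw [hu, div_le_iff₀ hρL]
      have e : 2 * (L : ℝ) * (ρ / L) = 2 * ρ := by field_simp
      rw [e]; linarith
    have h1 : (⌊u⌋₊ : ℝ) ≤ u := Nat.floor_le hu0
    have h2 : u < ⌊u⌋₊ + 1 := Nat.lt_floor_add_one _
    refine ⟨y + (((((⌊u⌋₊ : ℝ) - L) * (ρ / L) : ℝ)) : UnitAddCircle),
      Finset.mem_image.2 ⟨⌊u⌋₊, ?_, rfl⟩, ?_⟩
    · rw [Finset.mem_range]
      have h3 : (⌊u⌋₊ : ℝ) ≤ 2 * L := h1.trans hu2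
      have h4 : ⌊u⌋₊ ≤ 2 * L := by exact_mod_cast h3
      omega
    · have e1 : x - (y + (((((⌊u⌋₊ : ℝ) - L) * (ρ / L) : ℝ)) : UnitAddCircle)) =
          (((t - ((⌊u⌋₊ : ℝ) - L) * (ρ / L) : ℝ)) : UnitAddCircle) := by
        rw [AddCircle.coe_sub, htT]; abel
      rw [e1]
      have e2 : t - ((⌊u⌋₊ : ℝ) - L) * (ρ / L) = (u - ⌊u⌋₊) * (ρ / L) := by
        have e3 : u * (ρ / L) = t + ρ := by rw [hu]; field_simp
        have e4 : (L : ℝ) * (ρ / L) = ρ := by field_simp
        rw [sub_mul, sub_mul, e3, e4]; ring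
      rw [e2, UnitAddCircle.norm_eq]
      refine (round_le _ 0).trans ?_
      rw [Int.cast_zero, sub_zero, abs_of_nonneg (mul_nonneg (by linarith) hρL.le)]
      have h3 : u - ⌊u⌋₊ ≤ 1 := by linarith
      calc (u - ⌊u⌋₊) * (ρ / L) ≤ 1 * (ρ / L) := by gcongr
        _ = ρ / L := one_mul _

section
variable {B : ℕ → Set UnitAddCircle} {m h j0 : ℕ}

lemma one_step (hm : 1 ≤ m)
    (hB : ∀ j, j0 ≤ j → NoCluster (B j) m (2 ^ (h + 1)) ((1 / 2) ^ j)) {j : ℕ} (hj : j0 ≤ j + h)
    (P : Prop) [Decidable P] (y : UnitAddCircle) :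
    ∃ F : Finset UnitAddCircle, F.card ≤ (if P then m else 3 * 2 ^ h) ∧
      ∀ x : UnitAddCircle, (P → x ∈ B (j + h)) → ‖x - y‖ ≤ (1 / 2) ^ j →
        ∃ z ∈ F, ‖x - z‖ ≤ (1 / 2) ^ (j + h) := by
  split_ifs with hP
  · obtain ⟨F, hF1, hF2⟩ := cover_step hm (by positivity) (hB (j + h) hj) y (ρ := (1 / 2) ^ j) (by
      have e : (2 : ℝ) ^ (h + 1) * (1 / 2) ^ (j + h) =
          2 * (1 / 2) ^ j * (2 ^ h * (1 / 2) ^ h) := by
        rw [pow_succ, pow_add (1 / 2 : ℝ)]; ring
      rw [e, ← mul_pow]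
      norm_num)
    exact ⟨F, by omega, fun x hx hxy => hF2 x (hx hP) hxy⟩
  · obtain ⟨F, hF1, hF2⟩ := ball_cover y (ρ := (1 / 2 : ℝ) ^ j) (by positivity) (L := 2 ^ h)
      Nat.one_le_two_pow
    refine ⟨F, hF1, fun x _ hxy => ?_⟩
    obtain ⟨z, hz, hxz⟩ := hF2 x hxy
    refine ⟨z, hz, hxz.trans (le_of_eq ?_)⟩
    rw [pow_add]
    push_cast
    rw [div_eq_mul_inv, ← inv_pow]
    norm_num

/-- covering along a pattern -/
lemma levels (hm : 1 ≤ m)
    (hB : ∀ j, j0 ≤ j → NoCluster (B j) m (2 ^ (h + 1)) ((1 / 2) ^ j)) {F0 : Finset UnitAddCircle}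
    {r : ℕ} (hr : j0 ≤ r + h) (hF0 : ∀ x : UnitAddCircle, ∃ z ∈ F0, ‖x - z‖ ≤ (1 / 2) ^ r)
    (P : Finset ℕ) (n : ℕ) : ∃ F : Finset UnitAddCircle,
      F.card ≤ F0.card * ∏ i ∈ Finset.range n, (if i ∈ P then m else 3 * 2 ^ h) ∧
      ∀ x : UnitAddCircle, (∀ i < n, i ∈ P → x ∈ B (r + (i + 1) * h)) →
        ∃ z ∈ F, ‖x - z‖ ≤ (1 / 2) ^ (r + n * h) := by
  classical
  induction n with
  | zero =>
    refine ⟨F0, by simp, fun x _ => ?_⟩
    rw [zero_mul, add_zero]
    exact hF0 x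
  | succ n ih =>
    obtain ⟨F, hFc, hF⟩ := ih
    have hstep := fun y => one_step hm hB (j := r + n * h) (by nlinarith) (n ∈ P) y
    choose G hG1 hG2 using hstep
    refine ⟨F.biUnion G, ?_, fun x hx => ?_⟩
    · refine (Finset.card_biUnion_le_card_mul _ _ _ fun y _ => hG1 y).trans ?_
      rw [Finset.prod_range_succ, ← mul_assoc]
      exact Nat.mul_le_mul_right _ hFc
    · obtain ⟨y, hy, hxy⟩ := hF x fun i hi hiP => hx i (by omega) hiP
      have e : r + (n + 1) * h = r + n * h + h := by ring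
      obtain ⟨z, hz, hxz⟩ := hG2 y x (fun hP => by rw [← e]; exact hx n (by omega) hP) hxy
      exact ⟨z, Finset.mem_biUnion.2 ⟨y, hy, hz⟩, by rw [e]; exact hxz⟩

lemma prod_le (hm : 1 ≤ m) (P : Finset ℕ) {n t : ℕ} (ht : t ≤ ((Finset.range n).filter (· ∈ P)).card) :
    ∏ i ∈ Finset.range n, (if i ∈ P then m else 3 * 2 ^ h) ≤ m ^ n * (3 * 2 ^ h) ^ (n - t) := by
  classical
  rw [Finset.prod_ite, Finset.prod_const, Finset.prod_const]
  have h1 : ((Finset.range n).filter (· ∈ P)).card ≤ n := by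
    refine (Finset.card_filter_le _ _).trans ?_
    rw [Finset.card_range]
  have h2 : ((Finset.range n).filter fun i => ¬ i ∈ P).card = n - ((Finset.range n).filter (· ∈ P)).card := by
    have := Finset.card_filter_add_card_filter_not (s := Finset.range n) (· ∈ P)
    rw [Finset.card_range] at this
    omega
  rw [h2]
  have h3 : 1 ≤ 3 * 2 ^ h := by
    have : 1 ≤ 2 ^ h := Nat.one_le_two_pow
    omega
  exact Nat.mul_le_mul (Nat.pow_le_pow_right hm h1) (Nat.pow_le_pow_right h3 (by omega))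

/-- **Counting.** -/
theorem count (hm : 1 ≤ m) (hh : 1 ≤ h)
    (hB : ∀ j, j0 ≤ j → NoCluster (B j) m (2 ^ (h + 1)) ((1 / 2) ^ j)) :
    ∃ N0 : ℕ, ∀ n t : ℕ, ∃ F : Finset UnitAddCircle,
      F.card ≤ N0 * 2 ^ n * (m ^ n * (3 * 2 ^ h) ^ (n - t)) ∧
      ∀ x : UnitAddCircle, h * (t + j0 + 1) ≤
        {j | j < (j0 + 1 + n) * h ∧ x ∈ B j}.ncard → ∃ z ∈ F, ‖x - z‖ ≤ (1 / 2) ^ ((j0 + n) * h) := by
  classical
  have hr0 : (0 : ℝ) < (1 / 2) ^ ((j0 + 1) * h) := by positivity
  obtain ⟨T0, -, hTf, hT⟩ := (isCompact_univ (X := UnitAddCircle)).finite_cover_balls hr0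
  set F0 := hTf.toFinset with hF0
  have hF0c : ∀ r < h, ∀ x : UnitAddCircle, ∃ z ∈ F0, ‖x - z‖ ≤ (1 / 2) ^ (r + j0 * h) := by
    intro r hr x
    obtain ⟨z, hz, hxz⟩ := mem_iUnion₂.1 (hT (mem_univ x))
    refine ⟨z, hTf.mem_toFinset.2 hz, ?_⟩
    rw [← dist_eq_norm]
    refine (Metric.mem_ball.1 hxz).le.trans
      (pow_le_pow_of_le_one (by norm_num) (by norm_num) ?_)
    nlinarith
  refine ⟨h * F0.card, fun n t => ?_⟩
  have hlev : ∀ (r : ℕ) (P : Finset ℕ), ∃ F : Finset UnitAddCircle, r < h →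
      F.card ≤ F0.card * ∏ i ∈ Finset.range n, (if i ∈ P then m else 3 * 2 ^ h) ∧
      ∀ x : UnitAddCircle, (∀ i < n, i ∈ P → x ∈ B (r + j0 * h + (i + 1) * h)) →
        ∃ z ∈ F, ‖x - z‖ ≤ (1 / 2) ^ (r + j0 * h + n * h) := by
    intro r P
    by_cases hr : r < h
    · obtain ⟨F, hF⟩ := levels hm hB (r := r + j0 * h) (by nlinarith) (hF0c r hr) P n
      exact ⟨F, fun _ => hF⟩
    · exact ⟨∅, fun h' => absurd h' hr⟩
  choose G hG using hlev
  set PP : Finset (Finset ℕ) := (Finset.range n).powerset.filter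
    fun P => t ≤ ((Finset.range n).filter (· ∈ P)).card with hPP
  refine ⟨((Finset.range h) ×ˢ PP).biUnion fun u => G u.1 u.2, ?_, fun x hx => ?_⟩
  · refine (Finset.card_biUnion_le_card_mul _ _ (F0.card * (m ^ n * (3 * 2 ^ h) ^ (n - t)))
      fun u hu => ?_).trans ?_
    · rw [Finset.mem_product, Finset.mem_range, hPP, Finset.mem_filter] at hu
      refine (hG u.1 u.2 hu.1).1.trans (Nat.mul_le_mul_left _ (prod_le hm _ hu.2.2))
    · rw [Finset.card_product, Finset.card_range]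
      have h1 : PP.card ≤ 2 ^ n := by
        refine (Finset.card_filter_le _ _).trans ?_
        rw [Finset.card_powerset, Finset.card_range]
      calc h * PP.card * (F0.card * (m ^ n * (3 * 2 ^ h) ^ (n - t)))
          ≤ h * 2 ^ n * (F0.card * (m ^ n * (3 * 2 ^ h) ^ (n - t))) := by gcongr
        _ = h * F0.card * 2 ^ n * (m ^ n * (3 * 2 ^ h) ^ (n - t)) := by ring
  · -- the residue class with many bad scales
    set bad : ℕ → Finset ℕ := fun r => (Finset.range n).filter
      fun i => x ∈ B (r + j0 * h + (i + 1) * h) with hbad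
    obtain ⟨r, hr, hrt⟩ : ∃ r < h, t ≤ (bad r).card := by
      by_contra hcon
      push Not at hcon
      have hsub : {j | j < (j0 + 1 + n) * h ∧ x ∈ B j} ⊆
          (((Finset.range h).biUnion fun r => ((Finset.range (j0 + 1)).image fun i => r + i * h) ∪
            ((bad r).image fun i => r + j0 * h + (i + 1) * h) : Finset ℕ) : Set ℕ) := by
        rintro j ⟨hj1, hj2⟩
        rw [Finset.mem_coe, Finset.mem_biUnion]
        refine ⟨j % h, Finset.mem_range.2 (Nat.mod_lt _ (by omega)), ?_⟩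
        rw [Finset.mem_union]
        have hjd : j % h + (j / h) * h = j := by
          rw [mul_comm]; exact Nat.mod_add_div j h
        have hdlt : j / h < j0 + 1 + n := by
          rw [Nat.div_lt_iff_lt_mul (by omega)]; exact hj1
        rcases lt_or_ge (j / h) (j0 + 1) with h1 | h1
        · left
          exact Finset.mem_image.2 ⟨j / h, Finset.mem_range.2 h1, hjd⟩
        · right
          have e : j % h + j0 * h + (j / h - (j0 + 1) + 1) * h = j := by
            have e1 : j0 * h + (j / h - (j0 + 1) + 1) * h = (j / h) * h := by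
              rw [← add_mul]; congr 1; omega
            rw [add_assoc, e1]; exact hjd
          refine Finset.mem_image.2 ⟨j / h - (j0 + 1), ?_, e⟩
          simp only [hbad]
          rw [Finset.mem_filter, Finset.mem_range, e]
          exact ⟨by omega, hj2⟩
      have h1 := Set.ncard_le_ncard hsub (Finset.finite_toSet _)
      rw [Set.ncard_coe_finset] at h1
      have h2 : (((Finset.range h).biUnion fun r => ((Finset.range (j0 + 1)).image fun i => r + i * h) ∪
            ((bad r).image fun i => r + j0 * h + (i + 1) * h))).card ≤ h * (j0 + 1 + t - 1) := by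
        refine (Finset.card_biUnion_le_card_mul _ _ (j0 + 1 + t - 1) fun r hr => ?_).trans
          (by rw [Finset.card_range])
        refine (Finset.card_union_le _ _).trans ?_
        have h3 := Finset.card_image_le (s := Finset.range (j0 + 1)) (f := fun i => r + i * h)
        have h4 := Finset.card_image_le (s := bad r) (f := fun i => r + j0 * h + (i + 1) * h)
        have h5 := hcon r (Finset.mem_range.1 hr)
        rw [Finset.card_range] at h3
        omega
      have h3 : h * (j0 + 1 + t - 1) < h * (t + j0 + 1) :=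
        Nat.mul_lt_mul_of_pos_left (by omega) (by omega)
      omega
    have hmem : bad r ∈ PP := by
      rw [hPP, Finset.mem_filter, Finset.mem_powerset]
      refine ⟨Finset.filter_subset _ _, ?_⟩
      have : (Finset.range n).filter (· ∈ bad r) = bad r := by
        ext i
        simp only [hbad, Finset.mem_filter, Finset.mem_range]
        tauto
      rw [this]; exact hrt
    obtain ⟨z, hz, hxz⟩ := (hG r (bad r) hr).2 x fun i _ hi => (Finset.mem_filter.1 hi).2
    refine ⟨z, Finset.mem_biUnion.2 ⟨(r, bad r), Finset.mem_product.2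
      ⟨Finset.mem_range.2 hr, hmem⟩, hz⟩, hxz.trans
      (pow_le_pow_of_le_one (by norm_num) (by norm_num) ?_)⟩
    rw [add_mul]; omega

end

end Pool.Agent.Helper26K1.WS
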