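import Pool.Agent.W764.HL.Pair
import Pool.Agent.Helper26K1.WD.Cover

/-!
The points without equidistribution in one given window do not form clusters at the scale of the
window.
-/

set_option autoImplicit false

open MeasureTheory Filter Topology Set
open scoped ENNReal NNReal

namespace Pool.Agent.Helper26K1.WS

open Pool.Agent.W764.HL Pool.Agent.W764.FB Pool.Agent.W764.SH Pool.Agent.Helper26K1.WD

/-- the orbit of `x` is `ε`-equidistributed in the window `2 ^ j ≤ n < H 2 ^ j` -/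
def good (p q : ℕ) (ε : ℝ) (H : ℕ) (x : T) (j : ℕ) : Prop :=
  ∀ c : T, ∀ r : ℝ, 0 ≤ r → r ≤ 1 / 2 →
    |(vis p q (2 ^ j) (H * 2 ^ j) x c r : ℝ) - 2 * r * (win p q (2 ^ j) (H * 2 ^ j)).card| ≤
      ε * (win p q (2 ^ j) (H * 2 ^ j)).card

/-- disjoint arcs -/
lemma vis_add_le {p q : ℕ} {X Y : ℝ} (x c : T) {r r' : ℝ} (h : r + r' < 1 / 2) :
    vis p q X Y x c r + vis p q X Y x (c + ((1 / 2 : ℝ) : T)) r' ≤ (win p q X Y).card := by
  classical
  unfold vis
  rw [← Finset.card_union_of_disjoint]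
  · exact Finset.card_le_card (Finset.union_subset (Finset.filter_subset _ _)
      (Finset.filter_subset _ _))
  · rw [Finset.disjoint_filter]
    intro n _ h1 h2
    have h3 : ((1 / 2 : ℝ) : T) = (n • x - c) - (n • x - (c + ((1 / 2 : ℝ) : T))) := by abel
    have h4 : ‖((1 / 2 : ℝ) : T)‖ = 1 / 2 := by
      have := AddCircle.norm_half_period_eq (p := (1 : ℝ))
      rw [abs_one] at this
      exact this
    have h5 : ‖((1 / 2 : ℝ) : T)‖ ≤ r + r' := by
      rw [h3]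
      exact (norm_sub_le _ _).trans (by linarith)
    linarith

/-- lower bounds for all arcs give equidistribution -/
lemma two_sided {p q : ℕ} {X Y ε θ : ℝ} {x : T} (hε : 0 < ε) (hθ0 : 0 ≤ θ) (hθ : θ ≤ ε / 4)
    (h : ∀ c : T, ∀ r : ℝ, 0 ≤ r → r ≤ 1 / 2 →
      (2 * r * (1 - θ) - ε / 4) * (win p q X Y).card ≤ (vis p q X Y x c r : ℝ))
    (c : T) {r : ℝ} (hr0 : 0 ≤ r) (hr : r ≤ 1 / 2) :
    |(vis p q X Y x c r : ℝ) - 2 * r * (win p q X Y).card| ≤ ε * (win p q X Y).card := by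
  set N : ℝ := ((win p q X Y).card : ℝ) with hN
  have hN0 : 0 ≤ N := by rw [hN]; positivity
  have h1 := h c r hr0 hr
  have h2 : 2 * r * θ ≤ ε / 4 := by
    have : 2 * r * θ ≤ 1 * θ := by gcongr; linarith
    linarith
  have hlow : (2 * r - ε / 2) * N ≤ (vis p q X Y x c r : ℝ) := by
    refine le_trans ?_ h1
    have : 2 * r - ε / 2 ≤ 2 * r * (1 - θ) - ε / 4 := by nlinarith
    gcongr
  have hle : (vis p q X Y x c r : ℝ) ≤ N := by
    rw [hN]
    unfold vis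
    exact_mod_cast Finset.card_filter_le _ _
  have hup : (vis p q X Y x c r : ℝ) ≤ (2 * r + ε) * N := by
    by_cases hcase : 1 / 2 < r + ε / 8
    · have : 1 ≤ 2 * r + ε := by linarith
      nlinarith
    · push Not at hcase
      set r' : ℝ := 1 / 2 - r - ε / 8 with hr'
      have hr'0 : 0 ≤ r' := by linarith
      have h3 := h (c + ((1 / 2 : ℝ) : T)) r' hr'0 (by linarith)
      have h4 := vis_add_le (p := p) (q := q) (X := X) (Y := Y) x c (r := r) (r' := r')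
        (by rw [hr']; linarith)
      have h5 : (vis p q X Y x c r : ℝ) + (vis p q X Y x (c + ((1 / 2 : ℝ) : T)) r' : ℝ)
          ≤ N := by rw [hN]; exact_mod_cast h4
      have h6 : 2 * r' * θ ≤ ε / 4 := by
        have : 2 * r' * θ ≤ 1 * θ := by gcongr; linarith
        linarith
      have h7 : (1 - 2 * r - ε) * N ≤ (vis p q X Y x (c + ((1 / 2 : ℝ) : T)) r' : ℝ) := by
        refine le_trans ?_ h3
        have : 1 - 2 * r - ε ≤ 2 * r' * (1 - θ) - ε / 4 := by rw [hr'] at h6 ⊢; nlinarith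
        gcongr
      nlinarith
  rw [abs_le]
  constructor <;> nlinarith

/-- no clusters of bad points in one window -/
lemma bad_noCluster {p q : ℕ} (hp : 2 ≤ p) (hq : 2 ≤ q) (hpq : Nat.Coprime p q) {m : ℕ}
    (hm : 1 ≤ m) {K : ℝ} (hK : 1 ≤ K) {ε : ℝ} (hε : 0 < ε) (hmε : 1 / (m : ℝ) ≤ ε / 4) :
    ∀ᶠ H : ℕ in atTop, ∃ j0 : ℕ, ∀ j : ℕ, j0 ≤ j →
      NoCluster {x | ¬ good p q ε H x j} m K ((1 / 2) ^ j) := by
  obtain ⟨H0, hH0, h⟩ := cluster hp hq hpq m hK (ε := ε / 4) (by positivity)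
  obtain ⟨H1, hH1⟩ := exists_nat_ge H0
  filter_upwards [eventually_ge_atTop H1] with H hH
  have hHR : H0 ≤ (H : ℝ) := hH1.trans (by exact_mod_cast hH)
  obtain ⟨δ, hδ, h2⟩ := h H hHR
  obtain ⟨j0, hj0⟩ := exists_pow_lt_of_lt_one hδ (show (1 : ℝ) / 2 < 1 by norm_num)
  have hmR : (0 : ℝ) < m := by exact_mod_cast hm
  refine ⟨j0, fun j hj x hx hxd => ?_⟩
  have hτ : (0 : ℝ) < (1 / 2) ^ j := by positivity
  have hτδ : ((1 : ℝ) / 2) ^ j < δ :=
    lt_of_le_of_lt (pow_le_pow_of_le_one (by norm_num) (by norm_num) hj) hj0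
  obtain ⟨hW, h3⟩ := h2 _ hτ hτδ
  obtain ⟨α, hα1, hα2, hα3⟩ := h3 x hxd
  have e1 : (1 : ℝ) / (1 / 2) ^ j = 2 ^ j := by
    rw [div_pow, one_pow, one_div_one_div]
  have e2 : (H : ℝ) / (1 / 2) ^ j = H * 2 ^ j := by
    rw [div_pow, one_pow, div_div_eq_mul_div, div_one]
  rw [e1, e2] at hW hα3
  obtain ⟨i, hi⟩ : ∃ i, 1 - α i ≤ 1 / m := by
    by_contra hcon
    push Not at hcon
    have h4 : ∑ _i : Fin m, (1 : ℝ) / m < ∑ i, (1 - α i) :=
      Finset.sum_lt_sum_of_nonempty ⟨⟨0, by omega⟩, Finset.mem_univ _⟩ fun i _ => hcon i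
    rw [Finset.sum_const, Finset.card_univ, Fintype.card_fin, nsmul_eq_mul,
      mul_one_div_cancel hmR.ne'] at h4
    linarith
  refine hx i fun c r hr0 hr => two_sided hε (θ := 1 / (m : ℝ)) (by positivity) hmε
    (fun c r hr0 hr => ?_) c hr0 hr
  have h4 := hα3 i c r hr
  refine le_trans ?_ h4
  have h6 : 1 - 1 / (m : ℝ) ≤ α i := by linarith
  gcongr

/-- decreasing tolerance -/
lemma good_mono {p q : ℕ} {ε ε' : ℝ} (h : ε ≤ ε') {H : ℕ} {x : T} {j : ℕ}
    (hg : good p q ε H x j) : good p q ε' H x j := by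
  intro c r hr0 hr
  refine (hg c r hr0 hr).trans ?_
  gcongr

end Pool.Agent.Helper26K1.WS
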