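import Pool.Agent.Helper26K1.WS.Upper
import Pool.Agent.Y314.FD.Main

/-!
Lower bound for the dimension: points with long runs of zero digits.
-/

set_option autoImplicit false

open MeasureTheory Filter Topology Set
open scoped ENNReal NNReal

namespace Pool.Agent.Helper26K1.WS

open Pool.Agent.W764.HL Pool.Agent.W764.FB Pool.Agent.W764.SH
open Pool.Agent.Y314.FD hiding vis

lemma cnt_le {α β x L : ℝ} (hα : 0 < α) (hβ : 0 < β) (hx : 0 ≤ x) (hL : 0 ≤ L) :
    (cnt α β x L : ℝ) ≤ ((x + L) / α + 1) * (L / β + 1) := by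
  have h1 : slab α β x L ⊆ (slw α β (Finset.range ⌈(x + L) / α⌉₊) x L : Set (ℕ × ℕ)) := by
    rintro ⟨a, b⟩ ⟨h1, h2⟩
    simp only at h1 h2
    rw [Finset.mem_coe, mem_slw hα hβ]
    refine ⟨?_, h1, h2⟩
    simp only
    rw [Finset.mem_range, Nat.lt_ceil, lt_div_iff₀ hα]
    have : 0 ≤ (b : ℝ) * β := by positivity
    linarith
  have h2 := Set.ncard_le_ncard h1 (Finset.finite_toSet _)
  rw [Set.ncard_coe_finset] at h2
  have h3 := card_slw_le hα hβ (Finset.range ⌈(x + L) / α⌉₊) x hL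
  rw [Finset.card_range] at h3
  have h4 : (⌈(x + L) / α⌉₊ : ℝ) ≤ (x + L) / α + 1 := (Nat.ceil_lt_add_one (by positivity)).le
  have h5 : (cnt α β x L : ℝ) ≤ (slw α β (Finset.range ⌈(x + L) / α⌉₊) x L).card := by
    exact_mod_cast h2
  refine h5.trans (h3.trans ?_)
  gcongr

lemma le_cnt {α β x L : ℝ} (hα : 0 < α) (hβ : 0 < β) (hx : 0 ≤ x) (hL : β ≤ L) :
    x / α * (L / β - 1) ≤ (cnt α β x L : ℝ) := by
  have h1 : (slw α β (Finset.range (⌊x / α⌋₊ + 1)) x L : Set (ℕ × ℕ)) ⊆ slab α β x L := by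
    intro u hu
    rw [Finset.mem_coe, mem_slw hα hβ] at hu
    exact hu.2
  have h2 := Set.ncard_le_ncard h1 (slab_finite hα hβ _ _)
  rw [Set.ncard_coe_finset] at h2
  have h3 := le_card_slw hα hβ (A := Finset.range (⌊x / α⌋₊ + 1)) (x := x) L (fun a ha => by
    rw [Finset.mem_range, Nat.lt_succ_iff, Nat.le_floor_iff (by positivity),
      le_div_iff₀ hα] at ha
    exact ha)
  rw [Finset.card_range] at h3
  have h4 : x / α ≤ ((⌊x / α⌋₊ + 1 : ℕ) : ℝ) := by
    push_cast
    exact (Nat.lt_floor_add_one _).le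
  have h5 : 0 ≤ L / β - 1 := by
    rw [sub_nonneg, one_le_div hβ]; exact hL
  have h6 : ((slw α β (Finset.range (⌊x / α⌋₊ + 1)) x L).card : ℝ) ≤ (cnt α β x L : ℝ) := by
    exact_mod_cast h2
  refine le_trans ?_ (h3.trans h6)
  gcongr

section
variable {p q : ℕ} (hp : 2 ≤ p) (hq : 2 ≤ q)
include hp hq

/-- comparison of two windows of the same ratio -/
lemma win_ratio (hirr : Irrational (Real.log p / Real.log q)) {H X Y κ : ℝ} (hH : 0 < H)
    (hHq : 3 * Real.log q ≤ Real.log H) (hX : 0 < X) (hY : 0 < Y) (hκ : 0 < κ)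
    (hlX : Real.log H + Real.log p ≤ Real.log X) (hYX : κ * Real.log X ≤ Real.log Y) :
    κ / 4 * (win p q X (H * X)).card ≤ (win p q Y (H * Y)).card ∧
      (0 : ℝ) < (win p q Y (H * Y)).card := by
  obtain ⟨hlp, hlq⟩ := log_pos' hp hq
  have e1 : Real.log (H * X) - Real.log X = Real.log H := by
    rw [Real.log_mul hH.ne' hX.ne']; ring
  have e2 : Real.log (H * Y) - Real.log Y = Real.log H := by
    rw [Real.log_mul hH.ne' hY.ne']; ring
  rw [card_win hp hq hirr hX (by positivity), card_win hp hq hirr hY (by positivity), e1, e2]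
  set L := Real.log H with hL
  have hL0 : 0 < L := by linarith
  have hX0 : 0 < Real.log X := by linarith
  have hY0 : 0 < Real.log Y := lt_of_lt_of_le (by positivity) hYX
  have h1 := cnt_le hlp hlq hX0.le hL0.le
  have h2 := le_cnt hlp hlq hY0.le (by linarith : Real.log q ≤ L)
  have h3 : 3 ≤ L / Real.log q := by rw [le_div_iff₀ hlq]; exact hHq
  have h4 : (Real.log X + L) / Real.log p + 1 ≤ 2 * (Real.log X / Real.log p) := by
    rw [div_add_one hlp.ne', ← mul_div_assoc]
    gcongr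
    linarith
  have h5 : κ * (Real.log X / Real.log p) ≤ Real.log Y / Real.log p := by
    rw [← mul_div_assoc]
    gcongr
  have hq0 : 0 < Real.log X / Real.log p := by positivity
  constructor
  · calc κ / 4 * (cnt (Real.log p) (Real.log q) (Real.log X) L : ℝ)
        ≤ κ / 4 * (2 * (Real.log X / Real.log p) * (L / Real.log q + 1)) := by
          refine mul_le_mul_of_nonneg_left (h1.trans ?_) (by positivity)
          gcongr
      _ = κ * (Real.log X / Real.log p) * ((L / Real.log q + 1) / 2) := by ring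
      _ ≤ Real.log Y / Real.log p * (L / Real.log q - 1) := by
          apply mul_le_mul h5 (by linarith) (by positivity) (by positivity)
      _ ≤ _ := h2
  · refine lt_of_lt_of_le ?_ h2
    have : 0 < L / Real.log q - 1 := by linarith
    positivity

/-- a window is bad if it starts well after a run of zero digits has begun -/
lemma bad_of_run (hirr : Irrational (Real.log p / Real.log q)) {H : ℕ} {κ : ℝ} (hκ : 0 < κ)
    (hκ1 : κ ≤ 1) (hHq : 3 * Real.log q ≤ Real.log H) {n1 n2 j : ℕ} (h12 : n1 ≤ n2) {x : T}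
    (hx : ‖p ^ n1 • x‖ ≤ 1 / (p : ℝ) ^ (n2 - n1)) (h1 : (H : ℝ) * 2 ^ j ≤ κ / 64 * (p : ℝ) ^ n2)
    (h2 : (n1 : ℝ) * Real.log p ≤ (1 - κ) * (j * Real.log 2))
    (h3 : Real.log H + Real.log p ≤ j * Real.log 2) : ¬ good p q (κ / 16) H x j := by
  classical
  intro hg
  obtain ⟨hlp, hlq⟩ := log_pos' hp hq
  have hH0 : (0 : ℝ) < H := by
    rcases Nat.eq_zero_or_pos H with h | h
    · rw [h, Nat.cast_zero, Real.log_zero] at hHq
      linarith
    · exact_mod_cast h
  have hpn : (0 : ℝ) < (p : ℝ) ^ n1 := by positivity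
  set X : ℝ := 2 ^ j with hX
  set Y : ℝ := X / (p : ℝ) ^ n1 with hY
  have hX0 : 0 < X := by positivity
  have hY0 : 0 < Y := by positivity
  have hlX : Real.log X = j * Real.log 2 := by rw [hX, Real.log_pow]
  have hlY : Real.log Y = j * Real.log 2 - n1 * Real.log p := by
    rw [hY, Real.log_div hX0.ne' hpn.ne', hlX, Real.log_pow]
  obtain ⟨h4, h5⟩ := win_ratio hp hq hirr hH0 hHq hX0 hY0 hκ (by rw [hlX]; exact h3)
    (by rw [hlX, hlY]; linarith)
  set W := win p q X (H * X) with hW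
  have h6 : (win p q Y (H * Y)).card ≤ vis p q X (H * X) x 0 (κ / 64) := by
    unfold vis
    refine Finset.card_le_card_of_injOn (fun n => p ^ n1 * n) ?_ ?_
    · intro n hn
      rw [Finset.mem_coe, mem_win] at hn
      obtain ⟨⟨a, b, rfl⟩, h7, h8⟩ := hn
      rw [Finset.mem_coe, Finset.mem_filter, mem_win]
      have e : X = (p : ℝ) ^ n1 * Y := by rw [hY]; field_simp
      refine ⟨⟨⟨a + n1, b, by ring⟩, ?_, ?_⟩, ?_⟩
      · rw [e]; push_cast at h7 ⊢
        gcongr
      · rw [e, mul_left_comm]; push_cast at h8 ⊢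
        gcongr
      · show ‖(p ^ n1 * (p ^ a * q ^ b)) • x - 0‖ ≤ κ / 64
        rw [sub_zero, mul_comm (p ^ n1), mul_smul]
        refine (norm_nsmul_le' _ _).trans ?_
        have h9 : (((p ^ a * q ^ b : ℕ)) : ℝ) ≤ H * Y := h8.le
        calc (((p ^ a * q ^ b : ℕ)) : ℝ) * ‖p ^ n1 • x‖ ≤ (H * Y) * (1 / (p : ℝ) ^ (n2 - n1)) :=
              mul_le_mul h9 hx (norm_nonneg _) (by positivity)
          _ = H * X / (p : ℝ) ^ n2 := by
              have e2 : (p : ℝ) ^ n2 = p ^ n1 * p ^ (n2 - n1) := by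
                rw [← pow_add]; congr 1; omega
              rw [hY, e2]; field_simp
          _ ≤ κ / 64 := by
              rw [div_le_iff₀ (by positivity)]; exact h1
    · intro n _ n' _ hnn
      exact Nat.eq_of_mul_eq_mul_left (by positivity) hnn
  have h7 := hg 0 (κ / 64) (by positivity) (by linarith)
  rw [abs_le] at h7
  have h8 : ((win p q Y (H * Y)).card : ℝ) ≤ (vis p q X (H * X) x 0 (κ / 64) : ℝ) := by
    exact_mod_cast h6
  have hWR : (0 : ℝ) < W.card := by
    have h9 : (vis p q X (H * X) x 0 (κ / 64) : ℝ) ≤ W.card := by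
      unfold vis
      exact_mod_cast Finset.card_filter_le _ _
    linarith
  have h10 := h7.2
  have h11 : (vis p q X (H * X) x 0 (κ / 64) : ℝ) ≤ (2 * (κ / 64) + κ / 16) * W.card := by
    linarith
  nlinarith

/-- points with long runs of zeros have few good windows -/
lemma cantor_low (hirr : Irrational (Real.log p / Real.log q)) {s : ℝ} {R a b G : ℕ}
    [NeZero (p ^ (R + 1))] (hbm : 2 * p ^ R ≤ p ^ (R + 1)) (hab : a < b) (hG : 2 ≤ G) {κ : ℝ}
    (hκ : 0 < κ) (hκ1 : κ < 1) (has : (a : ℝ) / b < s * (1 - κ)) {x : T}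
    (hx : x ∈ cantor (m := p ^ (R + 1)) (b := p ^ R) hbm (free a b G)) {H : ℕ}
    (hHq : 3 * Real.log q ≤ Real.log H) : lowDens p q (κ / 16) H x < s := by
  classical
  obtain ⟨hlp, hlq⟩ := log_pos' hp hq
  have hb0 : (0 : ℝ) < b := by
    have : 0 < b := by omega
    exact_mod_cast this
  have hH0 : (0 : ℝ) < H := by
    rcases Nat.eq_zero_or_pos H with h | h
    · rw [h, Nat.cast_zero, Real.log_zero] at hHq
      linarith
    · exact_mod_cast h
  have hl2 : 0 < Real.log 2 := Real.log_pos (by norm_num)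
  have h1κ : 0 < 1 - κ := by linarith
  have hab0 : (0 : ℝ) ≤ (a : ℝ) / b := by positivity
  have hs0 : 0 < s := by
    by_contra hcon
    push Not at hcon
    nlinarith
  -- an intermediate ratio
  obtain ⟨s', hs'1, hs'2⟩ : ∃ s', (a : ℝ) / b < s' * (1 - κ) ∧ s' < s := by
    refine ⟨((a : ℝ) / b / (1 - κ) + s) / 2, ?_, ?_⟩
    · have : (a : ℝ) / b / (1 - κ) < s := by rw [div_lt_iff₀ h1κ]; exact has
      have e : (a : ℝ) / b = (a : ℝ) / b / (1 - κ) * (1 - κ) := by field_simp
      have h2 : (a : ℝ) / b / (1 - κ) * (1 - κ) < ((a : ℝ) / b / (1 - κ) + s) / 2 * (1 - κ) :=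
        mul_lt_mul_of_pos_right (by linarith) h1κ
      linarith
    · have : (a : ℝ) / b / (1 - κ) < s := by rw [div_lt_iff₀ h1κ]; exact has
      linarith
  have hs'0 : 0 < s' := by
    by_contra hcon
    push Not at hcon
    nlinarith
  set A : ℝ := Real.log p / ((1 - κ) * Real.log 2) with hA
  set C1 : ℝ := (Real.log H + Real.log p) / Real.log 2 + 2 with hC1
  set BB : ℝ := Real.log p / Real.log 2 with hBB
  set C2 : ℝ := |Real.log (64 * H / κ)| / Real.log 2 + 1 with hC2
  have hA0 : 0 < A := by positivity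
  have hBB0 : 0 < BB := by positivity
  have hC20 : 0 ≤ C2 := by positivity
  have hgap : 0 < s' * BB - A * (a / b) := by
    have h1 : A = BB / (1 - κ) := by rw [hA, hBB]; field_simp
    have h2 : A * (a / b) = BB * ((a : ℝ) / b / (1 - κ)) := by rw [h1]; field_simp
    have h3 : (a : ℝ) / b / (1 - κ) < s' := by rw [div_lt_iff₀ h1κ]; exact hs'1
    rw [h2]
    nlinarith
  obtain ⟨n0, hn0⟩ := exists_nat_ge ((C1 + s' * C2) / (s' * BB - A * (a / b)) + (C2 + 1) / BB)
  unfold lowDens
  refine lt_of_le_of_lt (liminf_le_of_frequently_le ?_ (isBdd_ge _)) hs'2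
  rw [frequently_atTop]
  intro N
  obtain ⟨n3, hn3⟩ := exists_nat_ge ((C2 + N + 1) / BB)
  set k := n0 + N + n3 with hk
  have hGk : k < G ^ k := Nat.lt_pow_self (by omega)
  set n1 := (R + 1) * (a * G ^ k) with hn1
  set n2 := (R + 1) * (b * G ^ k) with hn2
  have h12 : n1 ≤ n2 := Nat.mul_le_mul_left _ (Nat.mul_le_mul_right _ hab.le)
  have hGkb : G ^ k ≤ b * G ^ k := Nat.le_mul_of_pos_left _ (by omega)
  have hn2k : k ≤ n2 := by
    have : b * G ^ k ≤ (R + 1) * (b * G ^ k) := Nat.le_mul_of_pos_left _ (by omega)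
    omega
  have hn2R : ((n0 : ℝ) + N + n3) ≤ n2 := by
    have : n0 + N + n3 ≤ n2 := hn2k
    exact_mod_cast this
  have hn1R : (n1 : ℝ) = n2 * (a / b) := by
    rw [hn1, hn2]; push_cast; field_simp
  have hrun := zero_run hp hbm hx k
  have hexp : (R + 1) * (b * G ^ k - a * G ^ k) = n2 - n1 := by
    rw [Nat.mul_sub]
  rw [hexp] at hrun
  -- the number of scales
  have hNn0 : (0 : ℝ) ≤ n0 := Nat.cast_nonneg _
  have hNN : (0 : ℝ) ≤ N := Nat.cast_nonneg _
  have hNn3 : (0 : ℝ) ≤ n3 := Nat.cast_nonneg _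
  set y : ℝ := BB * n2 - Real.log (64 * H / κ) / Real.log 2 with hy
  have hyge : BB * n2 - C2 + 1 ≤ y := by
    rw [hy, hC2]
    have : Real.log (64 * H / κ) / Real.log 2 ≤ |Real.log (64 * H / κ)| / Real.log 2 := by
      gcongr
      exact le_abs_self _
    linarith
  have hBn : C2 + N + 1 ≤ BB * n2 := by
    rw [div_le_iff₀ hBB0] at hn3
    nlinarith
  have hy0 : 0 ≤ y := by linarith
  set J := ⌊y⌋₊ with hJ
  have hJy : (J : ℝ) ≤ y := Nat.floor_le hy0
  have hJy2 : y < J + 1 := Nat.lt_floor_add_one _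
  have hJge : BB * n2 - C2 ≤ J := by linarith
  have hJN : N + 1 ≤ J := by
    have : ((N : ℝ) + 1) ≤ J := by linarith
    exact_mod_cast this
  refine ⟨J, by omega, ?_⟩
  have hJpos : (0 : ℝ) < J := by
    have : 0 < J := by omega
    exact_mod_cast this
  rw [div_le_iff₀ hJpos]
  -- good scales are early
  have hcount : ({j | j < J ∧ good p q (κ / 16) H x j}.ncard : ℝ) ≤ A * n1 + C1 := by
    have hsub : {j | j < J ∧ good p q (κ / 16) H x j} ⊆
        (Finset.range (⌊A * n1 + (C1 - 2)⌋₊ + 1) : Set ℕ) := by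
      rintro j ⟨hj1, hj2⟩
      rw [Finset.mem_coe, Finset.mem_range, Nat.lt_succ_iff, Nat.le_floor_iff (by
        have h0 : 0 ≤ C1 - 2 := by
          rw [hC1]
          have : 0 ≤ (Real.log H + Real.log p) / Real.log 2 := by
            apply div_nonneg _ hl2.le
            linarith
          linarith
        positivity)]
      by_contra hcon
      push Not at hcon
      refine bad_of_run hp hq hirr hκ hκ1.le hHq h12 hrun (j := j) ?_ ?_ ?_ hj2
      · -- size
        have hjy : (j : ℝ) ≤ y := by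
          have : (j : ℝ) ≤ J := by exact_mod_cast hj1.le
          linarith
        have h64 : 0 < 64 * (H : ℝ) / κ := by positivity
        have h5 : (j : ℝ) * Real.log 2 + Real.log (64 * H / κ) ≤ n2 * Real.log p := by
          have h6 : (j : ℝ) * Real.log 2 ≤ y * Real.log 2 := by gcongr
          have h7 : y * Real.log 2 = n2 * Real.log p - Real.log (64 * H / κ) := by
            rw [hy, hBB]; field_simp
          linarith
        have h6 : (2 : ℝ) ^ j * (64 * H / κ) ≤ (p : ℝ) ^ n2 := by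
          rw [← Real.log_le_log_iff (by positivity) (by positivity),
            Real.log_mul (by positivity) h64.ne', Real.log_pow, Real.log_pow]
          exact h5
        have h7 : (H : ℝ) * 2 ^ j = κ / 64 * (2 ^ j * (64 * H / κ)) := by field_simp
        rw [h7]
        gcongr
      · have h5 : A * n1 ≤ j := by
          have h0 : 0 ≤ C1 - 2 := by
            rw [hC1]
            have : 0 ≤ (Real.log H + Real.log p) / Real.log 2 := by
              apply div_nonneg _ hl2.le
              linarith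
            linarith
          linarith
        have h6 : (n1 : ℝ) * Real.log p = (1 - κ) * (A * n1 * Real.log 2) := by
          rw [hA]; field_simp
        rw [h6]
        gcongr
      · have h5 : (Real.log H + Real.log p) / Real.log 2 ≤ j := by
          have h6 : 0 ≤ A * n1 := by positivity
          have h7 : C1 - 2 = (Real.log H + Real.log p) / Real.log 2 := by rw [hC1]; ring
          linarith
        rwa [div_le_iff₀ hl2] at h5
    have h1 := Set.ncard_le_ncard hsub (Finset.finite_toSet _)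
    rw [Set.ncard_coe_finset, Finset.card_range] at h1
    have h2 : (({j | j < J ∧ good p q (κ / 16) H x j}.ncard : ℕ) : ℝ) ≤
        (⌊A * n1 + (C1 - 2)⌋₊ : ℝ) + 1 := by exact_mod_cast h1
    have h3 : (⌊A * n1 + (C1 - 2)⌋₊ : ℝ) ≤ A * n1 + (C1 - 2) := Nat.floor_le (by
      have h0 : 0 ≤ C1 - 2 := by
        rw [hC1]
        have : 0 ≤ (Real.log H + Real.log p) / Real.log 2 := by
          apply div_nonneg _ hl2.le
          linarith
        linarith
      positivity)
    linarith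
  refine hcount.trans ?_
  have h1 : (C1 + s' * C2) ≤ (s' * BB - A * (a / b)) * n2 := by
    have h2 : (C1 + s' * C2) / (s' * BB - A * (a / b)) ≤ n2 := by
      have h3 : 0 ≤ (C2 + 1) / BB := by positivity
      linarith
    rw [div_le_iff₀ hgap] at h2
    linarith
  have h2 : s' * (BB * n2 - C2) ≤ s' * J := by gcongr
  rw [hn1R]
  linarith

/-- **Lower bound of the dimension.** -/
theorem dim_lower (hirr : Irrational (Real.log p / Real.log q)) {s : ℝ} (hs1 : s ≤ 1) :
    ENNReal.ofReal s ≤ dimH {x : T | ∃ ε : ℝ, 0 < ε ∧ ∀ᶠ H : ℕ in atTop,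
      lowDens p q ε H x < s} := by
  refine le_of_forall_lt_imp_le_of_dense fun c hc => ?_
  have hcfin : c ≠ ∞ := ne_top_of_lt hc
  set c' : ℝ := c.toReal with hc'
  have hc'0 : 0 ≤ c' := ENNReal.toReal_nonneg
  have hc's : c' < s := by
    rw [← ENNReal.ofReal_toReal hcfin] at hc
    exact (ENNReal.ofReal_lt_ofReal_iff_of_nonneg hc'0).1 hc
  obtain ⟨w, hw1, hw2⟩ := exists_rat_btwn hc's
  have hw0 : (0 : ℝ) < w := lt_of_le_of_lt hc'0 hw1
  have hw0' : 0 < w := by exact_mod_cast hw0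
  have hnum : 0 < w.num := Rat.num_pos.2 hw0'
  set a : ℕ := w.num.toNat with ha
  set b : ℕ := w.den with hb
  have haR : (a : ℝ) = w.num := by
    have : ((w.num.toNat : ℕ) : ℤ) = w.num := Int.toNat_of_nonneg hnum.le
    exact_mod_cast this
  have hab : (w : ℝ) = a / b := by
    rw [haR]; exact_mod_cast (Rat.num_div_den w).symm
  have ha1 : 1 ≤ a := by omega
  have hb1 : 0 < b := w.den_pos
  have hbR : (0 : ℝ) < b := by exact_mod_cast hb1
  have hablt : a < b := by
    have h1 : (a : ℝ) / b < 1 := by rw [← hab]; linarith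
    rw [div_lt_one hbR] at h1
    exact_mod_cast h1
  have haRp : (0 : ℝ) < a := by exact_mod_cast ha1
  obtain ⟨G0, hG0⟩ := exists_nat_ge (2 / ((w : ℝ) - c'))
  set G : ℕ := G0 + b + 2 with hG
  have hGR : 2 / ((w : ℝ) - c') ≤ G := by
    refine hG0.trans ?_
    exact_mod_cast (by omega : G0 ≤ G)
  have hGpos : (0 : ℝ) < G := by
    have : 0 < G := by omega
    exact_mod_cast this
  have hGb : b < G * a := by
    calc b < G := by omega
      _ = G * 1 := (mul_one G).symm
      _ ≤ G * a := Nat.mul_le_mul_left _ ha1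
  have hne : NeZero (p ^ (G + 1)) := ⟨by positivity⟩
  have hbm : 2 * p ^ G ≤ p ^ (G + 1) := by
    have e : p ^ (G + 1) = p * p ^ G := pow_succ' _ _
    rw [e]
    exact Nat.mul_le_mul_right _ hp
  have hs0 : 0 < s := by linarith
  obtain ⟨κ, hκ0, hκ1, hκ2⟩ : ∃ κ : ℝ, 0 < κ ∧ κ < 1 ∧ (a : ℝ) / b < s * (1 - κ) := by
    refine ⟨(1 - w / s) / 2, ?_, ?_, ?_⟩
    · have : (w : ℝ) / s < 1 := by rw [div_lt_one hs0]; exact hw2
      linarith
    · have : 0 < (w : ℝ) / s := by positivity
      linarith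
    · rw [← hab]
      have e : s * (1 - (1 - w / s) / 2) = (s + w) / 2 := by field_simp; ring
      rw [e]; linarith
  have h1 := free_dim (G := G) ha1 hablt hGb (p := p) (R := G) hp (by omega) hbm
  have hsub : cantor (m := p ^ (G + 1)) (b := p ^ G) hbm (free a b G) ⊆
      {x : T | ∃ ε : ℝ, 0 < ε ∧ ∀ᶠ H : ℕ in atTop, lowDens p q ε H x < s} := by
    intro x hx
    refine ⟨κ / 16, by positivity, ?_⟩
    have h2 : ∀ᶠ H : ℕ in atTop, 3 * Real.log q ≤ Real.log H :=
      (Real.tendsto_log_atTop.comp tendsto_natCast_atTop_atTop).eventually_ge_atTop _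
    filter_upwards [h2] with H hH
    exact cantor_low hp hq hirr hbm hablt (by omega) hκ0 hκ1 hκ2 hx hH
  refine le_trans ?_ (h1.trans (dimH_mono hsub))
  rw [← ENNReal.ofReal_toReal hcfin]
  apply ENNReal.ofReal_le_ofReal
  rw [← hc']
  have hwc : 0 < (w : ℝ) - c' := by linarith
  have h3 : 2 / (G : ℝ) ≤ w - c' := by
    rw [div_le_iff₀ hwc] at hGR
    rw [div_le_iff₀ hGpos]
    linarith
  have hw1' : (w : ℝ) ≤ 1 := by linarith
  have h4 : (G : ℝ) * (G * a - b) / ((G + 1) * (G * b)) = G / (G + 1) * (w - 1 / G) := by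
    rw [hab]; field_simp
  rw [h4]
  have h5 : (G : ℝ) / (G + 1) * (w - 1 / G) = w - (w + 1) / (G + 1) := by
    field_simp
    ring
  rw [h5]
  have h6 : ((w : ℝ) + 1) / (G + 1) ≤ 2 / G := by
    rw [div_le_div_iff₀ (by positivity) hGpos]
    nlinarith
  linarith

/-- **The spectrum.** -/
theorem spectrum (hpq : Nat.Coprime p q) {s : ℝ} (hs0 : 0 ≤ s) (hs1 : s ≤ 1) :
    dimH {x : T | ∃ ε : ℝ, 0 < ε ∧ ∃ᶠ H : ℕ in atTop, lowDens p q ε H x < s} =
      ENNReal.ofReal s ∧
    dimH {x : T | ∃ ε : ℝ, 0 < ε ∧ ∀ᶠ H : ℕ in atTop, lowDens p q ε H x < s} =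
      ENNReal.ofReal s := by
  have hirr := irr_of_coprime hp hq hpq
  have hsub : {x : T | ∃ ε : ℝ, 0 < ε ∧ ∀ᶠ H : ℕ in atTop, lowDens p q ε H x < s} ⊆
      {x : T | ∃ ε : ℝ, 0 < ε ∧ ∃ᶠ H : ℕ in atTop, lowDens p q ε H x < s} := by
    rintro x ⟨ε, hε, hx⟩
    exact ⟨ε, hε, hx.frequently⟩
  have h1 := dim_upper hp hq hpq hs0 hs1
  have h2 := dim_lower hp hq hirr hs1
  exact ⟨le_antisymm h1 (h2.trans (dimH_mono hsub)), le_antisymm ((dimH_mono hsub).trans h1) h2⟩

end

end Pool.Agent.Helper26K1.WS
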