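import Pool.Agent.Helper26K1.WS.Good
import Pool.Agent.Helper26K1.WS.Count
import Pool.Agent.Y314.FD.DimUp

/-!
Upper bound for the dimension of the points whose good windows have a small lower density.
-/

set_option autoImplicit false

open MeasureTheory Filter Topology Set
open scoped ENNReal NNReal

namespace Pool.Agent.Helper26K1.WS

open Pool.Agent.W764.HL Pool.Agent.W764.FB Pool.Agent.W764.SH Pool.Agent.Helper26K1.WD

/-- the lower density of the good windows -/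
noncomputable def lowDens (p q : ℕ) (ε : ℝ) (H : ℕ) (x : T) : ℝ :=
  liminf (fun J : ℕ => ({j | j < J ∧ good p q ε H x j}.ncard : ℝ) / J) atTop

lemma ncard_le (J : ℕ) (Q : ℕ → Prop) : {j | j < J ∧ Q j}.ncard ≤ J := by
  have h1 : {j | j < J ∧ Q j} ⊆ (Finset.range J : Set ℕ) := fun j hj => by
    rw [Finset.mem_coe, Finset.mem_range]; exact hj.1
  have h2 := Set.ncard_le_ncard h1 (Finset.finite_toSet _)
  rwa [Set.ncard_coe_finset, Finset.card_range] at h2

lemma ratio_nonneg (J : ℕ) (Q : ℕ → Prop) : 0 ≤ ({j | j < J ∧ Q j}.ncard : ℝ) / J := by positivity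

lemma ratio_le_one (J : ℕ) (Q : ℕ → Prop) : ({j | j < J ∧ Q j}.ncard : ℝ) / J ≤ 1 :=
  div_le_one_of_le₀ (by exact_mod_cast ncard_le J Q) (Nat.cast_nonneg _)

lemma isBdd_ge (Q : ℕ → Prop) :
    IsBoundedUnder (· ≥ ·) atTop fun J : ℕ => ({j | j < J ∧ Q j}.ncard : ℝ) / J :=
  ⟨0, eventually_map.2 (Eventually.of_forall fun J => ratio_nonneg J Q)⟩

lemma isCobdd_ge (Q : ℕ → Prop) :
    IsCoboundedUnder (· ≥ ·) atTop fun J : ℕ => ({j | j < J ∧ Q j}.ncard : ℝ) / J :=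
  IsBoundedUnder.isCoboundedUnder_ge ⟨1, eventually_map.2 (Eventually.of_forall fun J =>
    ratio_le_one J Q)⟩

lemma split_count (J : ℕ) (Q : ℕ → Prop) :
    {j | j < J ∧ Q j}.ncard + {j | j < J ∧ ¬ Q j}.ncard = J := by
  classical
  have h1 : {j | j < J ∧ Q j} = (((Finset.range J).filter Q : Finset ℕ) : Set ℕ) := by
    ext j; simp
  have h2 : {j | j < J ∧ ¬ Q j} = (((Finset.range J).filter fun j => ¬ Q j : Finset ℕ) : Set ℕ) := by
    ext j; simp
  rw [h1, h2, Set.ncard_coe_finset, Set.ncard_coe_finset,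
    Finset.card_filter_add_card_filter_not, Finset.card_range]

/-- the abstract upper bound -/
theorem dim_abstract {Q : T → ℕ → Prop} {m h j0 : ℕ} (hm : 1 ≤ m) (hh : 1 ≤ h)
    (hB : ∀ j, j0 ≤ j → NoCluster {x | ¬ Q x j} m (2 ^ (h + 1)) ((1 / 2) ^ j)) {s s' : ℝ}
    (hs0 : 0 ≤ s) (hs1 : s < 1) (hss : s < s') (hhs : 12 * (m : ℝ) ≤ 2 ^ ((h : ℝ) * (s' - s))) :
    dimH {x : T | liminf (fun J : ℕ => ({j | j < J ∧ Q x j}.ncard : ℝ) / J) atTop < s} ≤
      ENNReal.ofReal s' := by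
  obtain ⟨N0, hN0⟩ := count (B := fun j => {x | ¬ Q x j}) hm hh hB
  set t : ℕ → ℕ := fun n => ⌊(n : ℝ) - s * (n + j0 + 2)⌋₊ with ht
  choose F hF1 hF2 using fun n => hN0 n (t n)
  have hmR : (1 : ℝ) ≤ m := by exact_mod_cast hm
  set C : ℝ := N0 * 2 ^ ((h : ℝ) * (s * (j0 + 2) + 1)) with hC
  obtain ⟨v0, hv0⟩ := exists_nat_ge C
  have hb0 : (0 : ℝ) < (1 / 2) ^ h := by positivity
  have hb1 : ((1 : ℝ) / 2) ^ h < 1 := pow_lt_one₀ (by norm_num) (by norm_num) (by omega)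
  have hs'0 : 0 ≤ s' := by linarith
  refine Pool.Agent.Y314.FD.dimH_le_of_balls _ F hb0 hb1 hs'0 (v0 := v0) (fun n hn => ?_) ?_
  · -- the number of balls
    have h1 : ((F n).card : ℝ) ≤ N0 * 2 ^ n * (m ^ n * (3 * 2 ^ h) ^ (n - t n)) := by
      exact_mod_cast hF1 n
    refine h1.trans ?_
    have hntn : ((n - t n : ℕ) : ℝ) ≤ s * (n + j0 + 2) + 1 := by
      have h2 : (n : ℝ) - s * (n + j0 + 2) < t n + 1 := Nat.lt_floor_add_one _
      rcases le_or_gt (t n) n with h3 | h3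
      · rw [Nat.cast_sub h3]; linarith
      · rw [Nat.sub_eq_zero_of_le h3.le, Nat.cast_zero]
        have : 0 ≤ s * ((n : ℝ) + j0 + 2) := by positivity
        linarith
    have h3 : ((3 : ℝ) * 2 ^ h) ^ (n - t n) ≤ 3 ^ n * 2 ^ ((h : ℝ) * (s * (n + j0 + 2) + 1)) := by
      rw [mul_pow]
      have h4 : (3 : ℝ) ^ (n - t n) ≤ 3 ^ n := pow_le_pow_right₀ (by norm_num) (Nat.sub_le _ _)
      have h5 : ((2 : ℝ) ^ h) ^ (n - t n) ≤ 2 ^ ((h : ℝ) * (s * (n + j0 + 2) + 1)) := by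
        rw [← pow_mul, ← Real.rpow_natCast]
        apply Real.rpow_le_rpow_of_exponent_le (by norm_num)
        push_cast
        have : (0 : ℝ) ≤ h := Nat.cast_nonneg _
        gcongr
      gcongr
    have h4 : (2 : ℝ) ^ ((h : ℝ) * (s * (n + j0 + 2) + 1)) =
        2 ^ ((h : ℝ) * (s * (j0 + 2) + 1)) * 2 ^ ((h : ℝ) * s * n) := by
      rw [← Real.rpow_add (by norm_num)]; congr 1; ring
    have h5 : (2 : ℝ) ^ ((h : ℝ) * (s' - s) * n) = (2 ^ ((h : ℝ) * (s' - s))) ^ n := by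
      rw [Real.rpow_mul (by norm_num), Real.rpow_natCast]
    have h6 : C ≤ 2 ^ n := by
      have h7 : (n : ℝ) ≤ 2 ^ n := by exact_mod_cast (Nat.lt_two_pow_self).le
      have h8 : (v0 : ℝ) ≤ n := by exact_mod_cast hn
      linarith
    have hC0 : 0 ≤ C := by positivity
    calc (N0 : ℝ) * 2 ^ n * (m ^ n * (3 * 2 ^ h) ^ (n - t n))
        ≤ N0 * 2 ^ n * (m ^ n * (3 ^ n * 2 ^ ((h : ℝ) * (s * (n + j0 + 2) + 1)))) := by gcongr
      _ = C * (6 * m) ^ n * 2 ^ ((h : ℝ) * s * n) := by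
          rw [h4, hC, mul_pow, show (6 : ℝ) = 2 * 3 by norm_num, mul_pow]; ring
      _ ≤ 2 ^ n * (6 * m) ^ n * 2 ^ ((h : ℝ) * s * n) := by gcongr
      _ = (12 * m) ^ n * 2 ^ ((h : ℝ) * s * n) := by
          rw [← mul_pow]; congr 2; ring
      _ ≤ (2 ^ ((h : ℝ) * (s' - s))) ^ n * 2 ^ ((h : ℝ) * s * n) := by gcongr
      _ = 2 ^ ((h : ℝ) * (s' - s) * n) * 2 ^ ((h : ℝ) * s * n) := by rw [h5]
      _ = 2 ^ ((h : ℝ) * s' * n) := by
          rw [← Real.rpow_add (by norm_num)]; congr 1; ring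
      _ = ((1 / 2 : ℝ) ^ h) ^ (-(s' * n)) := by
          rw [one_div, inv_pow, Real.inv_rpow (by positivity), ← Real.rpow_neg (by positivity),
            neg_neg, ← Real.rpow_natCast 2 h, ← Real.rpow_mul (by norm_num)]
          congr 1; ring
  · intro x hx
    rw [mem_ofPred_eq] at hx
    have hfreq := frequently_lt_of_liminf_lt (isCobdd_ge (Q x)) hx
    rw [frequently_atTop] at hfreq ⊢
    intro N
    obtain ⟨n1, hn1⟩ := exists_nat_ge (s * (j0 + 2) / (1 - s))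
    obtain ⟨J, hJ1, hJ2⟩ := hfreq ((j0 + 1 + (N + n1)) * h + 1)
    have hJpos : (0 : ℝ) < J := by
      have : 0 < J := by omega
      exact_mod_cast this
    have hJdiv : j0 + 1 + (N + n1) ≤ J / h := by
      rw [Nat.le_div_iff_mul_le (by omega)]; omega
    set n := J / h - (j0 + 1) with hn
    have hnN : N + n1 ≤ n := by omega
    have hJn : (j0 + 1 + n) * h ≤ J := by
      have e : j0 + 1 + n = J / h := by omega
      rw [e]; exact Nat.div_mul_le_self J h
    have hJn2 : J < (j0 + 2 + n) * h := by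
      have e : j0 + 2 + n = J / h + 1 := by omega
      rw [e, mul_comm]; exact Nat.lt_mul_div_succ J (by omega)
    refine ⟨n, by omega, ?_⟩
    obtain ⟨z, hz, hxz⟩ := hF2 n x (by
      have h1 := split_count ((j0 + 1 + n) * h) (Q x)
      have h2 : {j | j < (j0 + 1 + n) * h ∧ Q x j}.ncard ≤ {j | j < J ∧ Q x j}.ncard := by
        refine Set.ncard_le_ncard (fun j hj => ⟨hj.1.trans_le hJn, hj.2⟩) ?_
        exact (Finset.finite_toSet (Finset.range J)).subset fun j hj => by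
          rw [Finset.mem_coe, Finset.mem_range]; exact hj.1
      rw [div_lt_iff₀ hJpos] at hJ2
      have h3 : (((j0 + 1 + n) * h : ℕ) : ℝ) - s * ((j0 + 2 + n) * h : ℕ) ≤
          ({j | j < (j0 + 1 + n) * h ∧ ¬ Q x j}.ncard : ℝ) := by
        have h4 : (({j | j < (j0 + 1 + n) * h ∧ Q x j}.ncard : ℕ) : ℝ) +
            ({j | j < (j0 + 1 + n) * h ∧ ¬ Q x j}.ncard : ℝ) = (((j0 + 1 + n) * h : ℕ) : ℝ) := by
          exact_mod_cast h1
        have h5 : (({j | j < (j0 + 1 + n) * h ∧ Q x j}.ncard : ℕ) : ℝ) ≤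
            ({j | j < J ∧ Q x j}.ncard : ℝ) := by exact_mod_cast h2
        have h6 : s * (J : ℝ) ≤ s * ((j0 + 2 + n) * h : ℕ) := by
          have : (J : ℝ) ≤ ((j0 + 2 + n) * h : ℕ) := by exact_mod_cast hJn2.le
          gcongr
        linarith
      have hge : 0 ≤ (n : ℝ) - s * (n + j0 + 2) := by
        rw [div_le_iff₀ (by linarith)] at hn1
        have h7 : ((N : ℝ) + n1) ≤ n := by exact_mod_cast hnN
        have h8 : (0 : ℝ) ≤ N := Nat.cast_nonneg _
        have h9 : (n1 : ℝ) * (1 - s) ≤ n * (1 - s) := by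
          have : 0 ≤ 1 - s := by linarith
          gcongr
          linarith
        linarith
      have h4 : (t n : ℝ) ≤ (n : ℝ) - s * (n + j0 + 2) := Nat.floor_le hge
      have h5 : ((h * (t n + j0 + 1) : ℕ) : ℝ) ≤
          ({j | j < (j0 + 1 + n) * h ∧ ¬ Q x j}.ncard : ℝ) := by
        refine le_trans ?_ h3
        push_cast
        have hhR : (0 : ℝ) ≤ h := Nat.cast_nonneg _
        have h6 : (h : ℝ) * t n ≤ h * ((n : ℝ) - s * (n + j0 + 2)) := by gcongr
        linarith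
      exact_mod_cast h5)
    refine ⟨z, hz, ?_⟩
    rw [dist_eq_norm]
    refine hxz.trans ?_
    rw [← pow_mul]
    exact pow_le_pow_of_le_one (by norm_num) (by norm_num) (by nlinarith)

/-- every set of points of the circle has dimension at most one -/
lemma dim_le_one (A : Set T) : dimH A ≤ 1 := by
  have h1 : LipschitzWith 1 (fun x : ℝ => (x : T)) := by
    refine LipschitzWith.of_dist_le_mul fun x y => ?_
    rw [dist_eq_norm, dist_eq_norm, ← AddCircle.coe_sub, NNReal.coe_one, one_mul,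
      UnitAddCircle.norm_eq, Real.norm_eq_abs]
    refine (round_le _ 0).trans ?_
    simp
  have h2 : A ⊆ (fun x : ℝ => (x : T)) '' univ := fun x _ => by
    obtain ⟨y, hy⟩ := QuotientAddGroup.mk_surjective x
    exact ⟨y, trivial, hy⟩
  refine (dimH_mono h2).trans ((h1.dimH_image_le univ).trans ?_)
  rw [Real.dimH_univ]

section
variable {p q : ℕ} (hp : 2 ≤ p) (hq : 2 ≤ q)
include hp hq

/-- **Upper bound.** -/
theorem dim_upper (hpq : Nat.Coprime p q) {s : ℝ} (hs0 : 0 ≤ s) (hs1 : s ≤ 1) :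
    dimH {x : T | ∃ ε : ℝ, 0 < ε ∧ ∃ᶠ H : ℕ in atTop, lowDens p q ε H x < s} ≤
      ENNReal.ofReal s := by
  rcases hs1.eq_or_lt with rfl | hs1
  · rw [ENNReal.ofReal_one]
    exact dim_le_one _
  refine ENNReal.le_of_forall_pos_le_add fun e he _ => ?_
  set s' : ℝ := s + e with hs'
  have he0 : (0 : ℝ) < e := by exact_mod_cast he
  have hss : s < s' := by linarith
  have hsum : ENNReal.ofReal s + (e : ℝ≥0∞) = ENNReal.ofReal s' := by
    rw [hs', ENNReal.ofReal_add hs0 he0.le, ENNReal.ofReal_coe_nnreal]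
  rw [hsum]
  have hlev : ∀ ε : ℝ, 0 < ε → ∀ᶠ H : ℕ in atTop,
      dimH {x : T | lowDens p q ε H x < s} ≤ ENNReal.ofReal s' := by
    intro ε hε
    obtain ⟨m, hm⟩ := exists_nat_ge (4 / ε)
    have hm0R : (0 : ℝ) < m := lt_of_lt_of_le (by positivity) hm
    have hm0 : 1 ≤ m := by
      have : 0 < m := by exact_mod_cast hm0R
      exact this
    have hmε : 1 / (m : ℝ) ≤ ε / 4 := by
      rw [div_le_div_iff₀ hm0R (by norm_num)]
      rw [div_le_iff₀ hε] at hm
      linarith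
    have hgt : (1 : ℝ) < 2 ^ (s' - s) := Real.one_lt_rpow (by norm_num) (by linarith)
    obtain ⟨h, hh⟩ := pow_unbounded_of_one_lt (12 * (m : ℝ)) hgt
    have hhs : 12 * (m : ℝ) ≤ 2 ^ (((h + 1 : ℕ) : ℝ) * (s' - s)) := by
      have e1 : (2 : ℝ) ^ ((h : ℝ) * (s' - s)) = (2 ^ (s' - s)) ^ h := by
        rw [mul_comm, Real.rpow_mul (by norm_num), Real.rpow_natCast]
      have e2 : (2 : ℝ) ^ ((h : ℝ) * (s' - s)) ≤ 2 ^ (((h + 1 : ℕ) : ℝ) * (s' - s)) := by
        apply Real.rpow_le_rpow_of_exponent_le (by norm_num)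
        push_cast
        nlinarith
      rw [e1] at e2
      linarith
    have hK : (1 : ℝ) ≤ 2 ^ (h + 1 + 1) := one_le_pow₀ (by norm_num)
    filter_upwards [bad_noCluster hp hq hpq hm0 hK hε hmε] with H hH
    obtain ⟨j0, hj0⟩ := hH
    exact dim_abstract (Q := fun x j => good p q ε H x j) hm0 (by omega : 1 ≤ h + 1) hj0 hs0 hs1
      hss hhs
  have hsub : {x : T | ∃ ε : ℝ, 0 < ε ∧ ∃ᶠ H : ℕ in atTop, lowDens p q ε H x < s} ⊆
      ⋃ n : ℕ, {x : T | ∃ᶠ H : ℕ in atTop, lowDens p q (1 / ((n : ℝ) + 1)) H x < s} := by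
    rintro x ⟨ε, hε, hx⟩
    obtain ⟨n, hn⟩ := exists_nat_one_div_lt hε
    refine mem_iUnion.2 ⟨n, hx.mono fun H hH => lt_of_le_of_lt ?_ hH⟩
    refine liminf_le_liminf ?_ (isBdd_ge _) (isCobdd_ge _)
    refine Eventually.of_forall fun J => ?_
    have h1 : {j | j < J ∧ good p q (1 / ((n : ℝ) + 1)) H x j}.ncard ≤
        {j | j < J ∧ good p q ε H x j}.ncard := by
      refine Set.ncard_le_ncard (fun j hj => ⟨hj.1, good_mono hn.le hj.2⟩) ?_
      exact (Finset.finite_toSet (Finset.range J)).subset fun j hj => by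
        rw [Finset.mem_coe, Finset.mem_range]; exact hj.1
    gcongr
  refine (dimH_mono hsub).trans ?_
  rw [dimH_iUnion]
  refine iSup_le fun n => ?_
  obtain ⟨H0, hH0⟩ := eventually_atTop.1 (hlev (1 / ((n : ℝ) + 1)) (by positivity))
  have hsub2 : {x : T | ∃ᶠ H : ℕ in atTop, lowDens p q (1 / ((n : ℝ) + 1)) H x < s} ⊆
      ⋃ H : ℕ, {x : T | lowDens p q (1 / ((n : ℝ) + 1)) (H0 + H : ℕ) x < s} := by
    intro x hx
    obtain ⟨H, hH, hx⟩ := (frequently_atTop.1 hx) H0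
    obtain ⟨H', rfl⟩ := Nat.exists_eq_add_of_le hH
    exact mem_iUnion.2 ⟨H', hx⟩
  refine (dimH_mono hsub2).trans ?_
  rw [dimH_iUnion]
  exact iSup_le fun H => hH0 (H0 + H) (by omega)

end

end Pool.Agent.Helper26K1.WS
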